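import Mathlib

/-!
# Good drawings realizing a rotation system

The plane is `ℂ`. A rotation system is given by the function `rot` sending a vertex to the list of
its neighbours in clockwise order.
-/

namespace Pool.MP_b347ba_lc

open Set

/-- The homeomorphism `h` of the plane is isotopic to the identity. In the plane this is the same
as being orientation preserving. -/
def OP (h : ℂ ≃ₜ ℂ) : Prop :=
  ∃ H : ℝ → ℂ ≃ₜ ℂ, ContinuousOn (fun x : ℝ × ℂ => H x.1 x.2) (Icc 0 1 ×ˢ univ) ∧
    (∀ z, H 0 z = z) ∧ ∀ z, H 1 z = h z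

/-- The curves `t ↦ g t` (for small `t > 0`) with `g` in the list `l` leave the point `p` in this
clockwise order: an orientation preserving homeomorphism of the plane maps, near `p`, the curves
to straight rays whose directions are in this clockwise order. -/
def LeaveCW (p : ℂ) (l : List (ℝ → ℂ)) : Prop :=
  ∃ (h : ℂ ≃ₜ ℂ) (θ : ℕ → ℝ) (δ : ℝ), OP h ∧ 0 < δ ∧
    (∀ i j, i < j → j < l.length → θ j < θ i ∧ θ i < θ j + 2 * Real.pi) ∧
    ∀ i g, l[i]? = some g → ∀ t ∈ Ioo 0 δ, ∃ r : ℝ, 0 < r ∧
      h (g t) = h p + r * Complex.exp (θ i * Complex.I)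

/-- The curves `g` and `g'` cross properly at the point `g a = g' b`: the four branches leaving
this point alternate. -/
def Crosses (g : ℝ → ℂ) (a : ℝ) (g' : ℝ → ℂ) (b : ℝ) : Prop :=
  LeaveCW (g a) [fun t => g (a + t), fun t => g' (b + t), fun t => g (a - t),
    fun t => g' (b - t)] ∨
  LeaveCW (g a) [fun t => g (a + t), fun t => g' (b - t), fun t => g (a - t),
    fun t => g' (b + t)]

/-- A good drawing realizing the rotation system `rot`. The edge `uv` is drawn as the arc
`t ↦ arc u v t`, `0 ≤ t ≤ 1`, from `pos u` to `pos v`. -/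
structure GoodDrawing {V : Type} (rot : V → List V) where
  /-- the points representing the vertices -/
  pos : V → ℂ
  /-- the arcs representing the edges -/
  arc : V → V → ℝ → ℂ
  pos_inj : Function.Injective pos
  cont : ∀ u v, v ∈ rot u → ContinuousOn (arc u v) (Icc 0 1)
  inj : ∀ u v, v ∈ rot u → InjOn (arc u v) (Icc 0 1)
  src : ∀ u v, v ∈ rot u → arc u v 0 = pos u
  rev : ∀ u v, v ∈ rot u → ∀ t ∈ Icc (0 : ℝ) 1, arc v u t = arc u v (1 - t)
  /-- no arc passes through a vertex -/
  avoid : ∀ u v, v ∈ rot u → ∀ t ∈ Ioo (0 : ℝ) 1, ∀ w, arc u v t ≠ pos w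
  /-- two arcs share at most one point -/
  once : ∀ u v x y, v ∈ rot u → y ∈ rot x → s(u, v) ≠ s(x, y) →
    ((arc u v '' Icc 0 1) ∩ (arc x y '' Icc 0 1)).Subsingleton
  /-- a common interior point of two arcs is a proper crossing -/
  proper : ∀ u v x y, v ∈ rot u → y ∈ rot x → s(u, v) ≠ s(x, y) →
    ∀ a ∈ Ioo (0 : ℝ) 1, ∀ b ∈ Ioo (0 : ℝ) 1, arc u v a = arc x y b →
      Crosses (arc u v) a (arc x y) b
  /-- no three arcs pass through a common crossing point -/
  triple : ∀ u v x y w z, v ∈ rot u → y ∈ rot x → z ∈ rot w → s(u, v) ≠ s(x, y) →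
    s(x, y) ≠ s(w, z) → s(w, z) ≠ s(u, v) → ∀ a ∈ Ioo (0 : ℝ) 1, ∀ b ∈ Ioo (0 : ℝ) 1,
      ∀ c ∈ Ioo (0 : ℝ) 1, arc u v a = arc x y b → arc x y b ≠ arc w z c
  /-- the drawing realizes the rotation system -/
  rotation : ∀ v, LeaveCW (pos v) ((rot v).map (arc v))

/-- There is a good drawing realizing the rotation system. -/
def Realizable {V : Type} (rot : V → List V) : Prop := Nonempty (GoodDrawing rot)

/-- A graph on `0, …, n - 1` with a rotation system: for every vertex the list of its neighbours
in clockwise order. -/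
structure RotSys where
  n : ℕ
  rot : Fin n → List (Fin n)
  nodup : ∀ v, (rot v).Nodup
  irrefl : ∀ v, v ∉ rot v
  symm : ∀ u v, v ∈ rot u → u ∈ rot v

/-- The word describing a rotation system: the number of vertices in unary, followed by `false`,
and for every vertex the list of its neighbours in clockwise order. The neighbour `w` is written
as `true`, followed by `w` in unary, followed by `false`; the end of a list is marked by `false`. -/
def RotSys.code (R : RotSys) : List Bool :=
  List.replicate R.n true ++ false :: (List.finRange R.n).flatMap fun v =>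
    (R.rot v).flatMap (fun w => true :: (List.replicate w.val true ++ [false])) ++ [false]

/-- The decision problem: descriptions of rotation systems realized by good drawings. -/
def GRR : Set (List Bool) := {w | ∃ R : RotSys, w = R.code ∧ Realizable R.rot}

end Pool.MP_b347ba_lc
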