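import Pool.Agent.Lib.MP_b347ba_lc.Hub

/-!
# The hub graph of a CNF formula
-/

namespace Pool.MP_b347ba_lc

/-- Literals: `(k, b)` is the variable `k` with sign `b`. -/
abbrev Lit (n : ℕ) : Type := Fin n × Bool

/-- The cyclic successor of a literal. -/
def nxt {n : ℕ} : Lit n → Lit n
  | (k, false) => (k, true)
  | (k, true) => (⟨(k.val + 1) % n, Nat.mod_lt _ k.pos⟩, false)

/-- The cyclic predecessor of a literal. -/
def prv {n : ℕ} : Lit n → Lit n
  | (k, true) => (k, false)
  | (k, false) => (⟨(k.val + (n - 1)) % n, Nat.mod_lt _ k.pos⟩, true)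

/-- The complementary literal. -/
def neg {n : ℕ} (q : Lit n) : Lit n := (q.1, !q.2)

/-- Inner vertices of the graph of a formula with `n` variables and `m` clauses. -/
inductive Vx (n m : ℕ) : Type
  | z1
  | z2
  | ua (c : Fin m) (q : Lit n)
  | ub (c : Fin m) (q : Lit n)
  | s (c : Fin m) (q : Lit n)
  | r (c : Fin m) (q : Lit n)
  | mm (c c' : Fin m) (q : Lit n)
  | t (c c' : Fin m) (q : Lit n)
  | wa (c c' : Fin m) (q : Lit n)
  | wb (c c' : Fin m) (q : Lit n)
  deriving DecidableEq

open Vx

variable {n m : ℕ} (cl : Fin m → Finset (Lit n))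

/-- The other clauses. -/
def others (c : Fin m) : List (Fin m) := (List.finRange m).filter fun c' => c' ≠ c

/-- Higher neighbours, from left to right. -/
def up : Vx n m → List (Vx n m)
  | z1 => []
  | z2 => []
  | ua _ _ => []
  | ub _ _ => []
  | s c q => [ub c q, ua c (nxt q)]
  | r c q => if q ∈ cl c then [] else [ua c q, ub c q]
  | mm c c' q => if c = c' then [] else [ua c q]
  | t _ _ _ => []
  | wa c c' q => if c = c' then [] else [t c' c (neg q), ua c q]
  | wb c c' q => if c = c' then [] else [mm c c' q, ub c q, t c c' q]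

/-- Lower neighbours, from left to right. -/
def dn : Vx n m → List (Vx n m)
  | z1 => []
  | z2 => []
  | ua c q => s c (prv q) :: ((others c).flatMap (fun c' => [wa c c' q, mm c c' q]) ++
      if q ∈ cl c then [] else [r c q])
  | ub c q => (if q ∈ cl c then [] else [r c q]) ++ ((others c).map (fun c' => wb c c' q) ++
      [s c q])
  | s _ _ => []
  | r _ _ => []
  | mm c c' q => if c = c' then [] else [wb c c' q]
  | t c c' q => if c = c' then [] else [wb c c' q, wa c' c (neg q)]
  | wa _ _ _ => []
  | wb _ _ _ => []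

/-- All literals. -/
def lits (n : ℕ) : List (Lit n) := (List.finRange n).flatMap fun k => [(k, false), (k, true)]

/-- Vertices indexed by a clause and a literal. -/
def fam2 (f : Fin m → Lit n → Vx n m) : List (Vx n m) :=
  (List.finRange m).flatMap fun c => (lits n).map fun q => f c q

/-- Vertices indexed by two clauses and a literal. -/
def fam3 (f : Fin m → Fin m → Lit n → Vx n m) : List (Vx n m) :=
  (List.finRange m).flatMap fun c => (List.finRange m).flatMap fun c' =>
    (lits n).map fun q => f c c' q

/-- The inner vertices from the lowest to the highest level. -/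
def lvs (n m : ℕ) : List (Vx n m) :=
  fam3 wa ++ (fam3 wb ++ (z2 :: (fam3 t ++ (fam3 mm ++ (fam2 s ++ (fam2 r ++
    (z1 :: (fam2 ua ++ fam2 ub))))))))

/-- The level of an inner vertex. -/
def lev (v : Vx n m) : ℕ := (lvs n m).idxOf v

/-- The rotation system of a formula. -/
def satRot : HV (Vx n m) → List (HV (Vx n m)) := hubRot (lvs n m) (up cl) (dn cl)

/-- The formula is satisfiable. -/
def Sat : Prop := ∃ α : Fin n → Bool, ∀ c, ∃ q ∈ cl c, α q.1 = q.2

end Pool.MP_b347ba_lc
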