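import Pool.Agent.Lib.MP_b347ba_lc.Defs

/-!
# Hub graphs

A hub graph is obtained from a graph whose vertices are arranged in levels by adding two adjacent
vertices `P` and `Q` joined to everything.
-/

namespace Pool.MP_b347ba_lc

/-- Vertices of a hub graph. -/
inductive HV (X : Type) : Type
  | P
  | Q
  | x (v : X)
  deriving DecidableEq

/-- The rotation system of a hub graph. The list `lv` contains the inner vertices from the lowest
to the highest level; `up v` and `dn v` are the higher and the lower inner neighbours of `v`, both
from left to right. -/
def hubRot {X : Type} (lv : List X) (up dn : X → List X) : HV X → List (HV X)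
  | .P => lv.reverse.map .x ++ [.Q]
  | .Q => lv.map .x ++ [.P]
  | .x v => (up v).map .x ++ .Q :: ((dn v).reverse.map .x ++ [.P])

/-- Consistency of the data of a hub graph. -/
structure IsLeveled {X : Type} (lev : X → ℕ) (lv : List X) (up dn : X → List X) : Prop where
  sorted : lv.Pairwise fun a b => lev a < lev b
  all : ∀ v, v ∈ lv
  up_nodup : ∀ v, (up v).Nodup
  dn_nodup : ∀ v, (dn v).Nodup
  symm : ∀ v w, w ∈ up v ↔ v ∈ dn w
  mono : ∀ v w, w ∈ up v → lev v < lev w

/-- Strands. -/
abbrev Strand (V : Type) : Type := V × V

/-- Sweeping a drawing from the bottom to the top: `Run up dn L vs X L'` means that one gets from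
the list `L` of the edges meeting a horizontal line (from left to right) to the list `L'` by
passing the vertices in the list `vs` and the crossings in the list `X`. An edge is written as
the pair consisting of its lower and its upper vertex. -/
inductive Run {V : Type} (up dn : V → List V) :
    List (Strand V) → List V → List (Strand V × Strand V) → List (Strand V) → Prop
  | nil (L : List (Strand V)) : Run up dn L [] [] L
  | swap (A B : List (Strand V)) (a b : Strand V) (vs : List V)
      (X : List (Strand V × Strand V)) (L' : List (Strand V)) :
      Run up dn (A ++ b :: a :: B) vs X L' → Run up dn (A ++ a :: b :: B) vs ((a, b) :: X) L'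
  | vert (A B : List (Strand V)) (v : V) (vs : List V) (X : List (Strand V × Strand V))
      (L' : List (Strand V)) :
      Run up dn (A ++ (up v).map (fun w => (v, w)) ++ B) vs X L' →
      Run up dn (A ++ (dn v).map (fun w => (w, v)) ++ B) (v :: vs) X L'

end Pool.MP_b347ba_lc
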