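import Pool.Agent.Lib.MP_b347ba_lc.Hub

/-!
# Combinatorial data of a good drawing of a hub graph
-/

namespace Pool.MP_b347ba_lc

/-- Combinatorial data read off a good drawing of a hub graph: `τ z (y, x)` is the position,
relative to `z`, at which the edge with lower vertex `y` and higher vertex `x` passes the level
of `z`. -/
structure LevelData {X : Type} (lev : X → ℕ) (up dn : X → List X) where
  τ : X → X × X → ℝ
  inj : ∀ z y x y' x', x ∈ up y → x' ∈ up y' → lev y < lev z → lev z < lev x →
    lev y' < lev z → lev z < lev x' → (y, x) ≠ (y', x') → τ z (y, x) ≠ τ z (y', x')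
  /-- edges with a common higher vertex -/
  top : ∀ z x y y', [y, y'].Sublist (dn x) → lev y < lev z → lev y' < lev z → lev z < lev x →
    τ z (y, x) < τ z (y', x)
  top_left : ∀ x y z, [y, z].Sublist (dn x) → lev y < lev z → τ z (y, x) < 0
  top_right : ∀ x y z, [z, y].Sublist (dn x) → lev y < lev z → 0 < τ z (y, x)
  /-- edges with a common lower vertex -/
  bot : ∀ z y x x', [x, x'].Sublist (up y) → lev y < lev z → lev z < lev x → lev z < lev x' →
    τ z (y, x) < τ z (y, x')
  bot_left : ∀ y x z, [x, z].Sublist (up y) → lev z < lev x → τ z (y, x) < 0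
  bot_right : ∀ y x z, [z, x].Sublist (up y) → lev z < lev x → 0 < τ z (y, x)
  /-- two edges do not change their order twice -/
  once : ∀ y x y' x' z₁ z₂ z₃, x ∈ up y → x' ∈ up y' → y ≠ y' → x ≠ x' →
    lev y < lev z₃ → lev y' < lev z₃ → lev z₃ < lev z₂ → lev z₂ < lev z₁ → lev z₁ < lev x →
    lev z₁ < lev x' → τ z₁ (y, x) < τ z₁ (y', x') → τ z₂ (y', x') < τ z₂ (y, x) →
    τ z₃ (y, x) < τ z₃ (y', x') → False

/-- The admissible lists of crossings: no crossing of adjacent edges, and no pair of edges crosses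
twice. -/
structure GoodX {V : Type} (X : List (Strand V × Strand V)) : Prop where
  indep : ∀ p ∈ X, p.1.1 ≠ p.2.1 ∧ p.1.1 ≠ p.2.2 ∧ p.1.2 ≠ p.2.1 ∧ p.1.2 ≠ p.2.2
  once : X.Pairwise fun p p' => p' ≠ p ∧ p' ≠ p.swap

/-- Higher neighbours in the hub graph. -/
def hubUp {X : Type} (lv : List X) (up : X → List X) : HV X → List (HV X)
  | .P => lv.reverse.map .x ++ [.Q]
  | .Q => lv.map .x
  | .x v => (up v).map .x

/-- Lower neighbours in the hub graph. -/
def hubDn {X : Type} (dn : X → List X) : HV X → List (HV X)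
  | .P => []
  | .Q => [.P]
  | .x v => .P :: ((dn v).map .x ++ [.Q])

theorem hubRot_eq {X : Type} (lv : List X) (up dn : X → List X) (v : HV X) :
    hubUp lv up v ++ (hubDn dn v).reverse = hubRot lv up dn v := by
  cases v <;> simp [hubUp, hubDn, hubRot]

end Pool.MP_b347ba_lc
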